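import Pool.Agent.G9.Stmts

/-! Squad GNI, row EVN: the polarity graph of the Ree - Tits hexagon has no closed non-backtracking
walks of length 4, 6, 8, 10. -/

set_option autoImplicit false

namespace Pool.Agent.G9.H45

open Pool.Agent.G9

section
variable {F : Type} [Field F]

/-- Two steps of a walk. -/
theorem two_steps {σ : F ≃+* F} (hσ : ∀ x, σ (σ x) = x ^ 3) {u w z : V9 F} (h1 : Inc σ u w)
    (h2 : Inc σ w z) :
    (σ u.1 - σ z.1) * w.1 = u.2.2.1 - z.2.2.1 ∧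
    (σ u.1 - σ z.1) * w.1 ^ 2 = u.2.2.2.2 - z.2.2.2.2 ∧
    (σ u.1 - σ z.1) * w.1 ^ 3 = σ u.2.1 - σ z.2.1 ∧
    (σ u.1 ^ 2 - σ z.1 ^ 2) * w.1 ^ 3 = σ u.2.2.2.1 - σ z.2.2.2.1 := by
  obtain ⟨a1, a2, a3, a4⟩ := h1
  obtain ⟨b1, b2, b3, b4⟩ := h2
  refine ⟨by linear_combination b2 - a1, by linear_combination b4 - a3, ?_, ?_⟩
  · have a2' := congrArg σ a2
    have b1' := congrArg σ b1
    rw [map_add, map_mul, hσ] at a2' b1'
    linear_combination b1' - a2'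
  · have a4' := congrArg σ a4
    have b3' := congrArg σ b3
    rw [map_add, map_mul, map_pow, hσ] at a4' b3'
    linear_combination b3' - a4'

theorem first_ne {σ : F ≃+* F} {u w z : V9 F} (h1 : Inc σ u w) (h2 : Inc σ w z) (h : u ≠ z) :
    u.1 ≠ z.1 := by
  intro he
  apply h
  obtain ⟨a1, a2, a3, a4⟩ := h1
  obtain ⟨b1, b2, b3, b4⟩ := h2
  obtain ⟨u1, u2, u3, u4, u5⟩ := u
  obtain ⟨z1, z2, z3, z4, z5⟩ := z
  simp only at he a1 a2 a3 a4 b1 b2 b3 b4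
  subst he
  have e2 : u2 = z2 := by linear_combination a2 - b1
  have e3 : u3 = z3 := by linear_combination a1 - b2
  have e4 : u4 = z4 := by linear_combination a4 - b3
  have e5 : u5 = z5 := by linear_combination a3 - b4
  rw [e2, e3, e4, e5]

theorem cube_sub (h3 : (3 : F) = 0) (x y : F) : (x - y) ^ 3 = x ^ 3 - y ^ 3 := by
  linear_combination (x * y ^ 2 - x ^ 2 * y) * h3

theorem two_ne (h3 : (3 : F) = 0) : (2 : F) ≠ 0 := by
  intro h
  have : (1 : F) = 0 := by linear_combination h3 - h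
  exact one_ne_zero this

theorem c2 {a b x y : F} (hab : a ≠ b) (hxy : x ≠ y) (m1 : (a - b) * x + (b - a) * y = 0) :
    False := by
  have : (a - b) * (x - y) = 0 := by linear_combination m1
  rcases mul_eq_zero.1 this with h | h
  · exact hab (sub_eq_zero.1 h)
  · exact hxy (sub_eq_zero.1 h)

theorem c3 {a b c x y z : F} (hab : a ≠ b) (hxy : x ≠ y) (hxz : x ≠ z)
    (m1 : (a - b) * x + (b - c) * y + (c - a) * z = 0)
    (m2 : (a - b) * x ^ 2 + (b - c) * y ^ 2 + (c - a) * z ^ 2 = 0) : False := by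
  have : (a - b) * ((x - y) * (x - z)) = 0 := by linear_combination m2 - (y + z) * m1
  rcases mul_eq_zero.1 this with h | h
  · exact hab (sub_eq_zero.1 h)
  rcases mul_eq_zero.1 h with h | h
  · exact hxy (sub_eq_zero.1 h)
  · exact hxz (sub_eq_zero.1 h)

theorem c4_eq {a b c d x y z w : F} (hab : a ≠ b) (hxy : x ≠ y) (hxw : x ≠ w)
    (m1 : (a - b) * x + (b - c) * y + (c - d) * z + (d - a) * w = 0)
    (m2 : (a - b) * x ^ 2 + (b - c) * y ^ 2 + (c - d) * z ^ 2 + (d - a) * w ^ 2 = 0)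
    (m3 : (a - b) * x ^ 3 + (b - c) * y ^ 3 + (c - d) * z ^ 3 + (d - a) * w ^ 3 = 0) : x = z := by
  have : (a - b) * ((x - y) * ((x - z) * (x - w))) = 0 := by
    linear_combination m3 - (y + z + w) * m2 + (y * z + y * w + z * w) * m1
  rcases mul_eq_zero.1 this with h | h
  · exact absurd (sub_eq_zero.1 h) hab
  rcases mul_eq_zero.1 h with h | h
  · exact absurd (sub_eq_zero.1 h) hxy
  rcases mul_eq_zero.1 h with h | h
  · exact sub_eq_zero.1 h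
  · exact absurd (sub_eq_zero.1 h) hxw

theorem c4 (h3 : (3 : F) = 0) {a b c d x y z w : F} (hab : a ≠ b) (hbc : b ≠ c) (hxy : x ≠ y)
    (hyz : y ≠ z) (hxw : x ≠ w)
    (m1 : (a - b) * x + (b - c) * y + (c - d) * z + (d - a) * w = 0)
    (m2 : (a - b) * x ^ 2 + (b - c) * y ^ 2 + (c - d) * z ^ 2 + (d - a) * w ^ 2 = 0)
    (m3 : (a - b) * x ^ 3 + (b - c) * y ^ 3 + (c - d) * z ^ 3 + (d - a) * w ^ 3 = 0)
    (s4 : (a ^ 2 - b ^ 2) * x ^ 3 + (b ^ 2 - c ^ 2) * y ^ 3 + (c ^ 2 - d ^ 2) * z ^ 3 +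
      (d ^ 2 - a ^ 2) * w ^ 3 = 0) : False := by
  have e1 : x = z := c4_eq hab hxy hxw m1 m2 m3
  have e2 : y = w := c4_eq (a := b) (b := c) (c := d) (d := a) (x := y) (y := z) (z := w) (w := x)
    hbc hyz hxy.symm (by linear_combination m1) (by linear_combination m2)
    (by linear_combination m3)
  subst e1 e2
  have hd : (a - b + c - d) * (x - y) = 0 := by linear_combination m1
  have hd' : d = a - b + c := by
    rcases mul_eq_zero.1 hd with h | h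
    · linear_combination -h
    · exact absurd (sub_eq_zero.1 h) hxy
  subst hd'
  have hz : 2 * ((a - b) * ((b - c) * (x - y) ^ 3)) = 0 := by
    rw [cube_sub h3]
    linear_combination s4
  rcases mul_eq_zero.1 hz with h | h
  · exact two_ne h3 h
  rcases mul_eq_zero.1 h with h | h
  · exact hab (sub_eq_zero.1 h)
  rcases mul_eq_zero.1 h with h | h
  · exact hbc (sub_eq_zero.1 h)
  · exact hxy (sub_eq_zero.1 (pow_eq_zero_iff (by norm_num) |>.1 h))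

theorem w5_ne {l1 l2 l3 l4 l5 x1 x2 x3 x4 x5 : F} (h2 : l2 ≠ 0) (h4 : l4 ≠ 0) (h5 : l5 ≠ 0)
    (m0 : l1 + l2 + l3 + l4 + l5 = 0) (m1 : l1 * x1 + l2 * x2 + l3 * x3 + l4 * x4 + l5 * x5 = 0)
    (m2 : l1 * x1 ^ 2 + l2 * x2 ^ 2 + l3 * x3 ^ 2 + l4 * x4 ^ 2 + l5 * x5 ^ 2 = 0)
    (m3 : l1 * x1 ^ 3 + l2 * x2 ^ 3 + l3 * x3 ^ 3 + l4 * x4 ^ 3 + l5 * x5 ^ 3 = 0)
    (n12 : x1 ≠ x2) (n34 : x3 ≠ x4) (n45 : x4 ≠ x5) (n51 : x5 ≠ x1) : x1 ≠ x3 := by
  intro e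
  subst e
  have h : l2 * ((x2 - x1) * ((x2 - x4) * (x2 - x5))) = 0 := by
    linear_combination m3 - (x1 + x4 + x5) * m2 + (x1 * x4 + x1 * x5 + x4 * x5) * m1 -
      x1 * x4 * x5 * m0
  rcases mul_eq_zero.1 h with h | h
  · exact h2 h
  rcases mul_eq_zero.1 h with h | h
  · exact n12 (sub_eq_zero.1 h).symm
  rcases mul_eq_zero.1 h with h | h
  · have e := sub_eq_zero.1 h
    subst e
    have h' : l5 * ((x5 - x1) * (x5 - x2)) = 0 := by
      linear_combination m2 - (x1 + x2) * m1 + x1 * x2 * m0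
    rcases mul_eq_zero.1 h' with h' | h'
    · exact h5 h'
    rcases mul_eq_zero.1 h' with h' | h'
    · exact n51 (sub_eq_zero.1 h')
    · exact n45 (sub_eq_zero.1 h').symm
  · have e := sub_eq_zero.1 h
    subst e
    have h' : l4 * ((x4 - x1) * (x4 - x2)) = 0 := by
      linear_combination m2 - (x1 + x2) * m1 + x1 * x2 * m0
    rcases mul_eq_zero.1 h' with h' | h'
    · exact h4 h'
    rcases mul_eq_zero.1 h' with h' | h'
    · exact n34 (sub_eq_zero.1 h').symm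
    · exact n45 (sub_eq_zero.1 h')

theorem pent_identity {a b c d e m : F}
    (hab : a - b ≠ 0) (hac : a - c ≠ 0) (had : a - d ≠ 0) (hae : a - e ≠ 0) (hbc : b - c ≠ 0)
    (hbd : b - d ≠ 0) (hbe : b - e ≠ 0) (hcd : c - d ≠ 0) (hce : c - e ≠ 0) (hde : d - e ≠ 0) :
    (m / ((a - b) * (a - c) * (a - d) * (a - e))) *
        (-m / ((a - b) * (b - c) * (b - d) * (b - e))) * (b - a) ^ 3 +
      (m / ((a - b) * (a - c) * (a - d) * (a - e))) *
        (m / ((a - c) * (b - c) * (c - d) * (c - e))) * (c - a) ^ 3 +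
      (m / ((a - b) * (a - c) * (a - d) * (a - e))) *
        (-m / ((a - d) * (b - d) * (c - d) * (d - e))) * (d - a) ^ 3 +
      (m / ((a - b) * (a - c) * (a - d) * (a - e))) *
        (m / ((a - e) * (b - e) * (c - e) * (d - e))) * (e - a) ^ 3 +
      (-m / ((a - b) * (b - c) * (b - d) * (b - e))) *
        (m / ((a - c) * (b - c) * (c - d) * (c - e))) * (c - b) ^ 3 +
      (-m / ((a - b) * (b - c) * (b - d) * (b - e))) *
        (-m / ((a - d) * (b - d) * (c - d) * (d - e))) * (d - b) ^ 3 +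
      (-m / ((a - b) * (b - c) * (b - d) * (b - e))) *
        (m / ((a - e) * (b - e) * (c - e) * (d - e))) * (e - b) ^ 3 +
      (m / ((a - c) * (b - c) * (c - d) * (c - e))) *
        (-m / ((a - d) * (b - d) * (c - d) * (d - e))) * (d - c) ^ 3 +
      (m / ((a - c) * (b - c) * (c - d) * (c - e))) *
        (m / ((a - e) * (b - e) * (c - e) * (d - e))) * (e - c) ^ 3 +
      (-m / ((a - d) * (b - d) * (c - d) * (d - e))) *
        (m / ((a - e) * (b - e) * (c - e) * (d - e))) * (e - d) ^ 3 =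
    -2 * m ^ 2 / ((a - c) * (b - d) * (c - e) * (a - d) * (b - e)) := by
  field_simp
  ring

theorem w5_dist (h3 : (3 : F) = 0) {l1 l2 l3 l4 l5 a b c d e : F} (h1 : l1 ≠ 0)
    (m0 : l1 + l2 + l3 + l4 + l5 = 0) (m1 : l1 * a + l2 * b + l3 * c + l4 * d + l5 * e = 0)
    (m2 : l1 * a ^ 2 + l2 * b ^ 2 + l3 * c ^ 2 + l4 * d ^ 2 + l5 * e ^ 2 = 0)
    (m3 : l1 * a ^ 3 + l2 * b ^ 3 + l3 * c ^ 3 + l4 * d ^ 3 + l5 * e ^ 3 = 0)
    (hc : l1 * l2 * (b - a) ^ 3 + l1 * l3 * (c - a) ^ 3 + l1 * l4 * (d - a) ^ 3 +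
      l1 * l5 * (e - a) ^ 3 + l2 * l3 * (c - b) ^ 3 + l2 * l4 * (d - b) ^ 3 +
      l2 * l5 * (e - b) ^ 3 + l3 * l4 * (d - c) ^ 3 + l3 * l5 * (e - c) ^ 3 +
      l4 * l5 * (e - d) ^ 3 = 0)
    (hab : a - b ≠ 0) (hac : a - c ≠ 0) (had : a - d ≠ 0) (hae : a - e ≠ 0) (hbc : b - c ≠ 0)
    (hbd : b - d ≠ 0) (hbe : b - e ≠ 0) (hcd : c - d ≠ 0) (hce : c - e ≠ 0) (hde : d - e ≠ 0) :
    False := by
  obtain ⟨m, hm⟩ : ∃ m, m = l1 * ((a - b) * (a - c) * (a - d) * (a - e)) := ⟨_, rfl⟩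
  have hm0 : m ≠ 0 := by
    rw [hm]
    exact mul_ne_zero h1 (mul_ne_zero (mul_ne_zero (mul_ne_zero hab hac) had) hae)
  have r1 : l1 = m / ((a - b) * (a - c) * (a - d) * (a - e)) := by
    rw [eq_div_iff (mul_ne_zero (mul_ne_zero (mul_ne_zero hab hac) had) hae), hm]
  have r2 : l2 = -m / ((a - b) * (b - c) * (b - d) * (b - e)) := by
    rw [eq_div_iff (mul_ne_zero (mul_ne_zero (mul_ne_zero hab hbc) hbd) hbe), hm]
    linear_combination (a - b) * (m3 - (c + d + e) * m2 + (c * d + c * e + d * e) * m1 -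
      c * d * e * m0)
  have r3 : l3 = m / ((a - c) * (b - c) * (c - d) * (c - e)) := by
    rw [eq_div_iff (mul_ne_zero (mul_ne_zero (mul_ne_zero hac hbc) hcd) hce), hm]
    linear_combination -(a - c) * (m3 - (b + d + e) * m2 + (b * d + b * e + d * e) * m1 -
      b * d * e * m0)
  have r4 : l4 = -m / ((a - d) * (b - d) * (c - d) * (d - e)) := by
    rw [eq_div_iff (mul_ne_zero (mul_ne_zero (mul_ne_zero had hbd) hcd) hde), hm]
    linear_combination (a - d) * (m3 - (b + c + e) * m2 + (b * c + b * e + c * e) * m1 -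
      b * c * e * m0)
  have r5 : l5 = m / ((a - e) * (b - e) * (c - e) * (d - e)) := by
    rw [eq_div_iff (mul_ne_zero (mul_ne_zero (mul_ne_zero hae hbe) hce) hde), hm]
    linear_combination -(a - e) * (m3 - (b + c + d) * m2 + (b * c + b * d + c * d) * m1 -
      b * c * d * m0)
  have key := pent_identity (m := m) hab hac had hae hbc hbd hbe hcd hce hde
  rw [← r1, ← r2, ← r3, ← r4, ← r5, hc] at key
  have hz : -2 * m ^ 2 / ((a - c) * (b - d) * (c - e) * (a - d) * (b - e)) ≠ 0 := by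
    apply div_ne_zero
    · exact mul_ne_zero (neg_ne_zero.2 (two_ne h3)) (pow_ne_zero _ hm0)
    · exact mul_ne_zero (mul_ne_zero (mul_ne_zero (mul_ne_zero hac hbd) hce) had) hbe
  exact hz key.symm

theorem c5 (h3 : (3 : F) = 0) {a1 a2 a3 a4 a5 x1 x2 x3 x4 x5 : F} (h1 : a1 ≠ a2) (h2 : a2 ≠ a3)
    (h3' : a3 ≠ a4) (h4 : a4 ≠ a5) (h5 : a5 ≠ a1)
    (m1 : (a1 - a2) * x1 + (a2 - a3) * x2 + (a3 - a4) * x3 + (a4 - a5) * x4 + (a5 - a1) * x5 = 0)
    (m2 : (a1 - a2) * x1 ^ 2 + (a2 - a3) * x2 ^ 2 + (a3 - a4) * x3 ^ 2 + (a4 - a5) * x4 ^ 2 +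
      (a5 - a1) * x5 ^ 2 = 0)
    (m3 : (a1 - a2) * x1 ^ 3 + (a2 - a3) * x2 ^ 3 + (a3 - a4) * x3 ^ 3 + (a4 - a5) * x4 ^ 3 +
      (a5 - a1) * x5 ^ 3 = 0)
    (s4 : (a1 ^ 2 - a2 ^ 2) * x1 ^ 3 + (a2 ^ 2 - a3 ^ 2) * x2 ^ 3 + (a3 ^ 2 - a4 ^ 2) * x3 ^ 3 +
      (a4 ^ 2 - a5 ^ 2) * x4 ^ 3 + (a5 ^ 2 - a1 ^ 2) * x5 ^ 3 = 0)
    (n12 : x1 ≠ x2) (n23 : x2 ≠ x3) (n34 : x3 ≠ x4) (n45 : x4 ≠ x5) (n51 : x5 ≠ x1) : False := by
  have l1 := sub_ne_zero.2 h1
  have l2 := sub_ne_zero.2 h2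
  have l3 := sub_ne_zero.2 h3'
  have l4 := sub_ne_zero.2 h4
  have l5 := sub_ne_zero.2 h5
  have n13 : x1 ≠ x3 := w5_ne l2 l4 l5 (l1 := a1 - a2) (l3 := a3 - a4) (by ring) m1 m2 m3 n12 n34
    n45 n51
  have n24 : x2 ≠ x4 := w5_ne (l1 := a2 - a3) (l3 := a4 - a5) l3 l5 l1
    (by ring) (by linear_combination m1) (by linear_combination m2)
    (by linear_combination m3) n23 n45 n51 n12
  have n35 : x3 ≠ x5 := w5_ne (l1 := a3 - a4) (l3 := a5 - a1) l4 l1 l2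
    (by ring) (by linear_combination m1) (by linear_combination m2)
    (by linear_combination m3) n34 n51 n12 n23
  have n41 : x4 ≠ x1 := w5_ne (l1 := a4 - a5) (l3 := a1 - a2) l5 l2 l3
    (by ring) (by linear_combination m1) (by linear_combination m2)
    (by linear_combination m3) n45 n12 n23 n34
  have n52 : x5 ≠ x2 := w5_ne (l1 := a5 - a1) (l3 := a2 - a3) l1 l3 l4
    (by ring) (by linear_combination m1) (by linear_combination m2)
    (by linear_combination m3) n51 n23 n34 n45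
  refine w5_dist h3 (l1 := a1 - a2) (l2 := a2 - a3) (l3 := a3 - a4) (l4 := a4 - a5) (l5 := a5 - a1)
    l1 (by ring) m1 m2 m3 ?_ (sub_ne_zero.2 n12) (sub_ne_zero.2 n13)
    (sub_ne_zero.2 n41.symm) (sub_ne_zero.2 n51.symm) (sub_ne_zero.2 n23) (sub_ne_zero.2 n24)
    (sub_ne_zero.2 n52.symm) (sub_ne_zero.2 n34) (sub_ne_zero.2 n35) (sub_ne_zero.2 n45)
  simp only [cube_sub h3]
  linear_combination 2 * a1 * m3 - s4

end

theorem evn : EvnStmt := by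
  intro F _ _ σ hσ k hk2 hk5 v hper hadj hne
  have h3 : (3 : F) = 0 := by exact_mod_cast CharP.cast_eq_zero F 3
  have hI : ∀ i, Inc σ (v i) (v (i + 1)) := fun i => (hadj i).2
  have hN : ∀ i, (v i).1 ≠ (v (i + 2)).1 := fun i => first_ne (hI i) (hI (i + 1)) (hne i)
  have hA : ∀ i, σ (v i).1 ≠ σ (v (i + 2)).1 := fun i h => hN i (σ.injective h)
  have hE := fun i => two_steps hσ (hI i) (hI (i + 1))
  have n1 : (v 1).1 ≠ (v 3).1 := hN 1
  have n3 : (v 3).1 ≠ (v 5).1 := hN 3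
  have n5' : (v 5).1 ≠ (v 7).1 := hN 5
  have n7' : (v 7).1 ≠ (v 9).1 := hN 7
  have n9' : (v 9).1 ≠ (v 11).1 := hN 9
  have b0 : σ (v 0).1 ≠ σ (v 2).1 := hA 0
  have b2 : σ (v 2).1 ≠ σ (v 4).1 := hA 2
  have b4 : σ (v 4).1 ≠ σ (v 6).1 := hA 4
  have b6 : σ (v 6).1 ≠ σ (v 8).1 := hA 6
  have b8 : σ (v 8).1 ≠ σ (v 10).1 := hA 8
  interval_cases k
  · have p0 : v 4 = v 0 := hper 0
    have q0 : (σ (v 0).1 - σ (v 2).1) * (v 1).1 = (v 0).2.2.1 - (v 2).2.2.1 := (hE 0).1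
    have q1 : (σ (v 2).1 - σ (v 4).1) * (v 3).1 = (v 2).2.2.1 - (v 4).2.2.1 := (hE 2).1
    rw [p0] at q1
    exact c2 b0 n1 (by linear_combination q0 + q1)
  · have p0 : v 6 = v 0 := hper 0
    have p1 : v 7 = v 1 := hper 1
    obtain ⟨q0, r0, -, -⟩ := hE 0
    obtain ⟨q1, r1, -, -⟩ := hE 2
    obtain ⟨q2, r2, -, -⟩ := hE 4
    have n5 := n5'
    rw [p1] at n5
    norm_num at q0 r0 q1 r1 q2 r2
    rw [p0] at q2 r2
    exact c3 (c := σ (v 4).1) b0 n1 n5.symm (by linear_combination q0 + q1 + q2)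
      (by linear_combination r0 + r1 + r2)
  · have p0 : v 8 = v 0 := hper 0
    have p1 : v 9 = v 1 := hper 1
    obtain ⟨q0, r0, s0, t0⟩ := hE 0
    obtain ⟨q1, r1, s1, t1⟩ := hE 2
    obtain ⟨q2, r2, s2, t2⟩ := hE 4
    obtain ⟨q3, r3, s3, t3⟩ := hE 6
    have n7 := n7'
    rw [p1] at n7
    norm_num at q0 r0 s0 t0 q1 r1 s1 t1 q2 r2 s2 t2 q3 r3 s3 t3
    rw [p0] at q3 r3 s3 t3
    exact c4 h3 (d := σ (v 6).1) b0 b2 n1 n3 n7.symm (by linear_combination q0 + q1 + q2 + q3)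
      (by linear_combination r0 + r1 + r2 + r3) (by linear_combination s0 + s1 + s2 + s3)
      (by linear_combination t0 + t1 + t2 + t3)
  · have p0 : v 10 = v 0 := hper 0
    have p1 : v 11 = v 1 := hper 1
    obtain ⟨q0, r0, s0, t0⟩ := hE 0
    obtain ⟨q1, r1, s1, t1⟩ := hE 2
    obtain ⟨q2, r2, s2, t2⟩ := hE 4
    obtain ⟨q3, r3, s3, t3⟩ := hE 6
    obtain ⟨q4, r4, s4, t4⟩ := hE 8
    have n9 := n9'
    rw [p1] at n9
    have a8 := b8
    rw [p0] at a8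
    norm_num at q0 r0 s0 t0 q1 r1 s1 t1 q2 r2 s2 t2 q3 r3 s3 t3 q4 r4 s4 t4
    rw [p0] at q4 r4 s4 t4
    exact c5 h3 b0 b2 b4 b6 a8 (by linear_combination q0 + q1 + q2 + q3 + q4)
      (by linear_combination r0 + r1 + r2 + r3 + r4) (by linear_combination s0 + s1 + s2 + s3 + s4)
      (by linear_combination t0 + t1 + t2 + t3 + t4) n1 n3 n5' n7' n9

end Pool.Agent.G9.H45
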